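import Pool.Agent.Q69.AKMZero

/-!
# Reordering a composition of three logistic maps can change the topological entropy

With `f_a(x) = a x (1 - x)` on `[0,1]`, the composition `f_4 ∘ f_3 ∘ f_1` has entropy at least
`log 2`, while `f_4 ∘ f_1 ∘ f_3` has entropy `0`.
-/

namespace Pool.Agent.Results.MP_3cd2af_an.Reorder

open Set Q69.AKM

/-- The logistic map `x ↦ a x (1 - x)` with parameter `a ∈ [1,4]`, as a self-map of `[0,1]`. -/
def logistic (a : ℝ) (ha : a ∈ Icc (1 : ℝ) 4) (x : unitInterval) : unitInterval :=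
  ⟨a * x * (1 - x), by
    have h1 := x.2.1
    have h2 := x.2.2
    have h3 : (0 : ℝ) ≤ (x : ℝ) * (1 - x) := mul_nonneg h1 (by linarith)
    have h4 : (x : ℝ) * (1 - x) ≤ 1 / 4 := by nlinarith [sq_nonneg ((x : ℝ) - 1 / 2)]
    constructor
    · nlinarith [ha.1]
    · nlinarith [ha.2]⟩

theorem continuous_logistic (a : ℝ) (ha : a ∈ Icc (1 : ℝ) 4) : Continuous (logistic a ha) := by
  unfold logistic
  fun_prop

theorem coe_logistic (a : ℝ) (ha : a ∈ Icc (1 : ℝ) 4) (x : unitInterval) :
    (logistic a ha x : ℝ) = a * x * (1 - x) := rfl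

theorem log_up {a : ℝ} (ha : a ∈ Icc (1 : ℝ) 4) {x y : unitInterval} (h : x ≤ y)
    (hs : (x : ℝ) + y ≤ 1) : logistic a ha x ≤ logistic a ha y := by
  have h' : (x : ℝ) ≤ y := h
  rw [← Subtype.coe_le_coe, coe_logistic, coe_logistic]
  have h1 : 0 ≤ (y - x : ℝ) * (1 - (x + y)) := mul_nonneg (by linarith) (by linarith)
  nlinarith [ha.1]

theorem log_dn {a : ℝ} (ha : a ∈ Icc (1 : ℝ) 4) {x y : unitInterval} (h : x ≤ y)
    (hs : 1 ≤ (x : ℝ) + y) : logistic a ha y ≤ logistic a ha x := by
  have h' : (x : ℝ) ≤ y := h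
  rw [← Subtype.coe_le_coe, coe_logistic, coe_logistic]
  have h1 : 0 ≤ (y - x : ℝ) * ((x + y) - 1) := mul_nonneg (by linarith) (by linarith)
  nlinarith [ha.1]

theorem h1 : (1 : ℝ) ∈ Icc (1 : ℝ) 4 := by constructor <;> norm_num
theorem h3 : (3 : ℝ) ∈ Icc (1 : ℝ) 4 := by constructor <;> norm_num
theorem h4 : (4 : ℝ) ∈ Icc (1 : ℝ) 4 := by constructor <;> norm_num

/-- The chaotic order. -/
def F : unitInterval → unitInterval := logistic 4 h4 ∘ logistic 3 h3 ∘ logistic 1 h1

/-- The tame order. -/
def G : unitInterval → unitInterval := logistic 4 h4 ∘ logistic 1 h1 ∘ logistic 3 h3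

theorem continuous_F : Continuous F :=
  (continuous_logistic _ _).comp ((continuous_logistic _ _).comp (continuous_logistic _ _))

theorem F_symm (x : unitInterval) : F (unitInterval.symm x) = F x := by
  have : logistic 1 h1 (unitInterval.symm x) = logistic 1 h1 x := by
    apply Subtype.ext; rw [coe_logistic, coe_logistic, unitInterval.coe_symm_eq]; ring
  simp only [F, Function.comp_apply, this]

theorem F_zero : F 0 = 0 := by
  have h : ∀ (a : ℝ) (ha : a ∈ Icc (1 : ℝ) 4), logistic a ha 0 = 0 := by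
    intro a ha; apply Subtype.ext; rw [coe_logistic]; simp
  simp only [F, Function.comp_apply, h]

theorem F_left (y : unitInterval) : ∃ x : unitInterval, (x : ℝ) ≤ 2 / 5 ∧ F x = y := by
  have hc : Continuous (fun x : unitInterval => (logistic 3 h3 (logistic 1 h1 x))) :=
    (continuous_logistic _ _).comp (continuous_logistic _ _)
  let e : unitInterval := ⟨2 / 5, by constructor <;> norm_num⟩
  have h0 : logistic 3 h3 (logistic 1 h1 0) ≤ ⟨1 / 2, by constructor <;> norm_num⟩ := by
    rw [← Subtype.coe_le_coe, coe_logistic, coe_logistic]; simp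
  have he : (⟨1 / 2, by constructor <;> norm_num⟩ : unitInterval) ≤
      logistic 3 h3 (logistic 1 h1 e) := by
    rw [← Subtype.coe_le_coe, coe_logistic, coe_logistic]
    simp only [e]
    norm_num
  have h0e : (0 : unitInterval) ≤ e := unitInterval.nonneg'
  obtain ⟨s, hs, hs2⟩ := intermediate_value_Icc h0e hc.continuousOn ⟨h0, he⟩
  have hFs : F s = 1 := by
    have : F s = logistic 4 h4 (logistic 3 h3 (logistic 1 h1 s)) := rfl
    rw [this]
    simp only at hs2
    rw [hs2]
    apply Subtype.ext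
    rw [coe_logistic]
    norm_num
  obtain ⟨x, hx, hx2⟩ := intermediate_value_Icc hs.1 continuous_F.continuousOn
    (show y ∈ Icc (F 0) (F s) by
      rw [F_zero, hFs]; exact ⟨unitInterval.nonneg', unitInterval.le_one'⟩)
  refine ⟨x, ?_, hx2⟩
  have : (x : ℝ) ≤ e := le_trans hx.2 hs.2
  exact this

theorem log_two_le : ((Real.log 2 : ℝ) : EReal) ≤ topEnt F := by
  refine log_two_le_topEnt continuous_F
    (J := fun b => if b then {x : unitInterval | (3 : ℝ) / 5 ≤ x} else {x | (x : ℝ) ≤ 2 / 5})
    ?_ ?_ ?_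
  · intro b
    cases b
    · exact isClosed_le continuous_subtype_val continuous_const
    · exact isClosed_le continuous_const continuous_subtype_val
  · rw [Set.disjoint_left]
    intro x hx hx'
    simp only [if_true, if_false, mem_setOf_eq, Bool.false_eq_true] at hx hx'
    linarith
  · intro b y
    obtain ⟨x, hx, hxy⟩ := F_left y
    cases b
    · exact ⟨x, hx, hxy⟩
    · refine ⟨unitInterval.symm x, ?_, by rw [F_symm, hxy]⟩
      simp only [if_true, mem_setOf_eq, unitInterval.coe_symm_eq]
      linarith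

/-- The labels of the four monotone branches of `G`. -/
noncomputable def lab (x : unitInterval) : Fin 4 :=
  if (x : ℝ) < 1 / 2 then (if (logistic 3 h3 x : ℝ) < 1 / 2 then 1 else 2)
  else (if (logistic 3 h3 x : ℝ) < 1 / 2 then 0 else 3)

def sg : Fin 4 → ℤ := ![-1, 1, -1, 1]

theorem one_le_quarter (y : unitInterval) : (logistic 1 h1 y : ℝ) ≤ 1 / 4 := by
  rw [coe_logistic]; nlinarith [sq_nonneg ((y : ℝ) - 1 / 2)]

theorem G_le (x : unitInterval) : (G x : ℝ) ≤ 3 / 4 := by
  have h := one_le_quarter (logistic 3 h3 x)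
  have h0 := (logistic 1 h1 (logistic 3 h3 x)).2.1
  have : (G x : ℝ) = 4 * (logistic 1 h1 (logistic 3 h3 x) : ℝ) *
    (1 - (logistic 1 h1 (logistic 3 h3 x) : ℝ)) := rfl
  rw [this]; nlinarith

theorem G_ge {x : unitInterval} (hx : (1 : ℝ) / 2 ≤ logistic 3 h3 x) : (39 : ℝ) / 64 ≤ G x := by
  have h34 : (logistic 3 h3 x : ℝ) ≤ 3 / 4 := by
    rw [coe_logistic]; nlinarith [sq_nonneg ((x : ℝ) - 1 / 2)]
  have h := one_le_quarter (logistic 3 h3 x)
  have h0 : (3 : ℝ) / 16 ≤ (logistic 1 h1 (logistic 3 h3 x) : ℝ) := by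
    rw [coe_logistic]; nlinarith
  have : (G x : ℝ) = 4 * (logistic 1 h1 (logistic 3 h3 x) : ℝ) *
    (1 - (logistic 1 h1 (logistic 3 h3 x) : ℝ)) := rfl
  rw [this]; nlinarith

theorem lab_G_ne (x : unitInterval) : lab (G x) ≠ 0 := by
  unfold lab
  split_ifs with h h' h'
  · decide
  · decide
  · exfalso
    rw [coe_logistic] at h'
    have := G_le x
    nlinarith
  · decide

theorem lab_G_three {x : unitInterval} (hx : (1 : ℝ) / 2 ≤ logistic 3 h3 x) : lab (G x) = 3 := by
  have h1 := G_ge hx
  have h2 := G_le x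
  unfold lab
  split_ifs with h h' h'
  · exfalso; linarith
  · exfalso; linarith
  · exfalso
    rw [coe_logistic] at h'
    nlinarith
  · rfl

theorem lab_le (x : unitInterval) : lab x ≤ lab (G x) := by
  by_cases hy : (logistic 3 h3 x : ℝ) < 1 / 2
  · have h0 := lab_G_ne x
    have h1 : lab x ≤ 1 := by
      unfold lab
      split_ifs <;> decide
    refine h1.trans ?_
    revert h0
    generalize lab (G x) = j
    revert j
    decide
  · rw [lab_G_three (not_lt.1 hy)]
    exact Fin.le_last _

theorem entropy_G : topEnt G = 0 := by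
  refine topEnt_eq_zero_of_labels (lab := lab) (sg := sg) lab_le (by decide) ?_ ?_
  · intro x y hl hxy hs
    have hq : (logistic 1 h1 (logistic 3 h3 x) : ℝ) + logistic 1 h1 (logistic 3 h3 y) ≤ 1 := by
      linarith [one_le_quarter (logistic 3 h3 x), one_le_quarter (logistic 3 h3 y)]
    refine log_up h4 ?_ hq
    by_cases hx : (x : ℝ) < 1 / 2
    · by_cases hxx : (logistic 3 h3 x : ℝ) < 1 / 2
      · -- label one
        have hlx : lab x = 1 := by unfold lab; rw [if_pos hx, if_pos hxx]
        rw [hlx] at hl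
        have hy : (y : ℝ) < 1 / 2 ∧ (logistic 3 h3 y : ℝ) < 1 / 2 := by
          unfold lab at hl
          split_ifs at hl with a b b
          · exact ⟨a, b⟩
          · exact absurd hl (by decide)
          · exact absurd hl (by decide)
          · exact absurd hl (by decide)
        exact log_up h1 (log_up h3 hxy (by linarith)) (by linarith)
      · exfalso
        have hlx : lab x = 2 := by unfold lab; rw [if_pos hx, if_neg hxx]
        rw [hlx] at hs
        exact absurd hs (by decide)
    · by_cases hxx : (logistic 3 h3 x : ℝ) < 1 / 2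
      · exfalso
        have hlx : lab x = 0 := by unfold lab; rw [if_neg hx, if_pos hxx]
        rw [hlx] at hs
        exact absurd hs (by decide)
      · have hlx : lab x = 3 := by unfold lab; rw [if_neg hx, if_neg hxx]
        rw [hlx] at hl
        have hy : ¬ (y : ℝ) < 1 / 2 ∧ ¬ (logistic 3 h3 y : ℝ) < 1 / 2 := by
          unfold lab at hl
          split_ifs at hl with a b b
          · exact absurd hl (by decide)
          · exact absurd hl (by decide)
          · exact absurd hl (by decide)
          · exact ⟨a, b⟩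
        exact log_dn h1 (log_dn h3 hxy (by linarith [hy.1])) (by linarith [hy.2])
  · intro x y hl hxy hs
    have hq : (logistic 1 h1 (logistic 3 h3 y) : ℝ) + logistic 1 h1 (logistic 3 h3 x) ≤ 1 := by
      linarith [one_le_quarter (logistic 3 h3 x), one_le_quarter (logistic 3 h3 y)]
    refine log_up h4 ?_ hq
    by_cases hx : (x : ℝ) < 1 / 2
    · by_cases hxx : (logistic 3 h3 x : ℝ) < 1 / 2
      · exfalso
        have hlx : lab x = 1 := by unfold lab; rw [if_pos hx, if_pos hxx]
        rw [hlx] at hs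
        exact absurd hs (by decide)
      · have hlx : lab x = 2 := by unfold lab; rw [if_pos hx, if_neg hxx]
        rw [hlx] at hl
        have hy : (y : ℝ) < 1 / 2 ∧ ¬ (logistic 3 h3 y : ℝ) < 1 / 2 := by
          unfold lab at hl
          split_ifs at hl with a b b
          · exact absurd hl (by decide)
          · exact ⟨a, b⟩
          · exact absurd hl (by decide)
          · exact absurd hl (by decide)
        exact log_dn h1 (log_up h3 hxy (by linarith [hy.1])) (by linarith [hy.2])
    · by_cases hxx : (logistic 3 h3 x : ℝ) < 1 / 2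
      · have hlx : lab x = 0 := by unfold lab; rw [if_neg hx, if_pos hxx]
        rw [hlx] at hl
        have hy : ¬ (y : ℝ) < 1 / 2 ∧ (logistic 3 h3 y : ℝ) < 1 / 2 := by
          unfold lab at hl
          split_ifs at hl with a b b
          · exact absurd hl (by decide)
          · exact absurd hl (by decide)
          · exact ⟨a, b⟩
          · exact absurd hl (by decide)
        exact log_up h1 (log_dn h3 hxy (by linarith [hy.1])) (by linarith [hy.2])
      · exfalso
        have hlx : lab x = 3 := by unfold lab; rw [if_neg hx, if_neg hxx]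
        rw [hlx] at hs
        exact absurd hs (by decide)

/-- **The entropy of a threefold composition of logistic maps depends on the order.** For
`(a₁, a₂, a₃) = (4, 3, 1)` the entropy of `f₁ ∘ f₂ ∘ f₃` is at least `log 2`, and the entropy of
`f₁ ∘ f₃ ∘ f₂` is `0`. -/
theorem result :
    ∃ (a₁ a₂ a₃ : ℝ) (h₁ : a₁ ∈ Icc (1 : ℝ) 4) (h₂ : a₂ ∈ Icc (1 : ℝ) 4)
      (h₃ : a₃ ∈ Icc (1 : ℝ) 4),
      topEnt (logistic a₁ h₁ ∘ logistic a₂ h₂ ∘ logistic a₃ h₃) ≠
        topEnt (logistic a₁ h₁ ∘ logistic a₃ h₃ ∘ logistic a₂ h₂) ∧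
      ((Real.log 2 : ℝ) : EReal) ≤
        topEnt (logistic a₁ h₁ ∘ logistic a₂ h₂ ∘ logistic a₃ h₃) ∧
      topEnt (logistic a₁ h₁ ∘ logistic a₃ h₃ ∘ logistic a₂ h₂) = 0 := by
  refine ⟨4, 3, 1, h4, h3, h1, ?_, log_two_le, entropy_G⟩
  intro h
  have h5 : topEnt F = topEnt G := h
  have h6 := log_two_le
  rw [h5, entropy_G] at h6
  have h7 : (0 : ℝ) < Real.log 2 := Real.log_pos (by norm_num)
  have h8 : Real.log 2 ≤ 0 := by exact_mod_cast h6
  linarith

end Pool.Agent.Results.MP_3cd2af_an.Reorder
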